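import Mathlib

set_option autoImplicit false
open Matrix Filter Topology

namespace Pool.Agent.H.MP_0a1f67_ag

variable {ι : Type} [Fintype ι] [DecidableEq ι]

theorem pd_ev {S : Matrix ι ι ℝ} (hS : S.PosDef) : ∀ᶠ T in 𝓝 S, T.IsHermitian → T.PosDef := by
  have := (isCompact_sphere (0 : ι → ℝ) 1).eventually_forall_of_forall_eventually (x₀ := S)
    (P := fun T x => 0 < x ⬝ᵥ T *ᵥ x) fun x hx => by
      have c : Continuous fun z : Matrix ι ι ℝ × (ι → ℝ) => z.2 ⬝ᵥ z.1 *ᵥ z.2 := by fun_prop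
      refine c.continuousAt.eventually (lt_mem_nhds ?_)
      exact hS.dotProduct_mulVec_pos (x := x) (by rintro rfl; simp at hx)
  filter_upwards [this] with T hT h
  refine PosDef.of_dotProduct_mulVec_pos h fun x hx => ?_
  have h0 : 0 < ‖x‖ := norm_pos_iff.mpr hx
  have := hT (‖x‖⁻¹ • x) (by simp [norm_smul, h0.ne'])
  simp only [mulVec_smul, dotProduct_smul, smul_dotProduct, smul_eq_mul] at this
  exact (mul_pos_iff_of_pos_left (inv_pos.mpr h0)).mp ((mul_pos_iff_of_pos_left (inv_pos.mpr h0)).mp this)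

theorem pd_line {S : Matrix ι ι ℝ} (hS : S.PosDef) (N : Matrix ι ι ℝ) :
    ∀ᶠ s : ℝ in 𝓝 0, (S + s • N).IsHermitian → (S + s • N).PosDef := by
  have c : Continuous fun s : ℝ => S + s • N := by fun_prop
  exact (c.tendsto' 0 S (by simp)).eventually (pd_ev hS)

open scoped MatrixOrder in
theorem tr0 {K L X : Matrix ι ι ℝ} (hK : K.PosDef) (hL : L.PosDef) (h : (Xᴴ * (K * X * L)).trace = 0) :
    X = 0 := by
  obtain ⟨B, hB, rfl⟩ := CStarAlgebra.isStrictlyPositive_iff_eq_star_mul_self.mp hL.isStrictlyPositive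
  have h1 : (B * (Xᴴ * K * X) * Bᴴ) = 0 := by
    refine ((hK.posSemidef.conjTranspose_mul_mul_same X).mul_mul_conjTranspose_same B).trace_eq_zero_iff.mp ?_
    rw [← h, Matrix.mul_assoc, trace_mul_comm]
    simp only [Matrix.mul_assoc, star_eq_conjTranspose]
  rw [← star_eq_conjTranspose B, (hB.star).mul_left_eq_zero, hB.mul_right_eq_zero] at h1
  ext i j
  by_contra hc
  have := hK.dotProduct_mulVec_pos (x := fun i => X i j) fun h => hc (congrFun h i)
  have h2 := congrFun (congrFun h1 j) j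
  rw [Matrix.mul_assoc] at h2
  exact this.ne' h2

variable (F : ι → ι → Prop) [DecidableRel F]

noncomputable def Ph (S : Matrix ι ι ℝ) : Matrix ι ι ℝ := of fun i j => if F i j then S⁻¹ i j else S i j
def rr : Matrix ι ι ℝ →ₗ[ℝ] Matrix ι ι ℝ where
  toFun S := of fun i j => if F i j then 0 else S i j
  map_add' A B := by ext i j; by_cases h : F i j <;> simp [h]
  map_smul' c B := by ext i j; by_cases h : F i j <;> simp [h]

variable {F}

theorem rr_ap (S : Matrix ι ι ℝ) (i j : ι) : rr F S i j = if F i j then 0 else S i j := rfl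

theorem tr1 {X Y : Matrix ι ι ℝ} (h : ∀ i j, ¬ F i j → X i j = 0) (g : ∀ i j, F i j → Y i j = 0) :
    (Xᴴ * Y).trace = 0 := by
  simp only [trace, diag, mul_apply, conjTranspose_apply]
  refine Finset.sum_eq_zero fun j _ => Finset.sum_eq_zero fun i _ => ?_
  by_cases e : F i j
  · simp [g i j e]
  · simp [h i j e]

theorem uniq {S T : Matrix ι ι ℝ} (hS : S.PosDef) (hT : T.PosDef) (h : Ph F S = Ph F T) : S = T := by
  have e : S⁻¹ * (S - T) * T⁻¹ = T⁻¹ - S⁻¹ := by
    rw [mul_sub, sub_mul, nonsing_inv_mul _ ((isUnit_iff_isUnit_det _).mp hS.isUnit),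
      mul_nonsing_inv_cancel_right _ _ ((isUnit_iff_isUnit_det _).mp hT.isUnit), one_mul]
  refine sub_eq_zero.mp (tr0 hS.inv hT.inv (tr1 (F := F) (fun i j a => ?_) fun i j a => ?_))
  · simpa [Ph, a, sub_eq_zero] using congrFun (congrFun h i) j
  · rw [e]
    simpa [Ph, a, sub_eq_zero] using (congrFun (congrFun h i) j).symm

theorem herm_N (a b : ι) : (single a b (1 : ℝ) + single b a 1).IsHermitian := by
  simp [IsHermitian, conjTranspose_add, add_comm]

theorem exist (hs : ∀ i j, F i j → F j i) (hi : ∀ i, ¬ F i i) {S0 : Matrix ι ι ℝ} (h0 : S0.PosDef) :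
    ∃ S : Matrix ι ι ℝ, S.PosDef ∧ Ph F S = rr F S0 := by
  have hc : IsCompact {S : Matrix ι ι ℝ | S.PosSemidef ∧ rr F S = rr F S0} := by
    refine (isCompact_univ_pi fun i => isCompact_univ_pi fun j =>
      isCompact_Icc (a := -(S0 i i + S0 j j)) (b := S0 i i + S0 j j)).of_isClosed_subset ?_ ?_
    · refine IsClosed.inter ?_ (isClosed_eq (rr F).continuous_of_finiteDimensional continuous_const)
      change IsClosed {S : Matrix ι ι ℝ | S.PosSemidef}
      simp only [posSemidef_iff_dotProduct_mulVec]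
      refine IsClosed.inter (isClosed_eq (by fun_prop) continuous_id) ?_
      change IsClosed {S : Matrix ι ι ℝ | ∀ x, _}
      simp only [Set.ofPred_forall]
      exact isClosed_iInter fun x => isClosed_le continuous_const (by fun_prop)
    · rintro S ⟨h1, h2⟩ i - j -
      have d : ∀ i, S i i = S0 i i := fun i => by simpa [rr_ap, hi] using congrFun (congrFun h2 i) i
      have a := h1.dotProduct_mulVec_nonneg (Pi.single i 1 + Pi.single j 1)
      have b := h1.dotProduct_mulVec_nonneg (Pi.single i 1 - Pi.single j 1)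
      have c : S j i = S i j := by simpa using congrFun (congrFun h1.1 i) j
      simp [mulVec_add, mulVec_sub, d, c] at a b
      have := h0.diag_pos (i := i)
      have := h0.diag_pos (i := j)
      constructor <;> linarith
  obtain ⟨S, ⟨h1, h2⟩, h3⟩ := hc.exists_isMaxOn ⟨S0, h0.posSemidef, rfl⟩ (f := det) (by fun_prop)
  have hS : S.PosDef := h1.posDef_iff_det_ne_zero.mpr (h0.det_pos.trans_le (h3 ⟨h0.posSemidef, rfl⟩)).ne'
  refine ⟨S, hS, ?_⟩
  ext a b
  by_cases hab : F a b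
  swap
  · simpa [Ph, rr_ap, hab] using congrFun (congrFun h2 a) b
  simp only [Ph, rr_ap, hab, of_apply, if_true]
  set N : Matrix ι ι ℝ := single a b 1 + single b a 1 with hN
  have m : IsLocalMax (fun s : ℝ => (S + s • N).det) 0 := by
    filter_upwards [pd_line hS N] with s h
    simp only [zero_smul, add_zero]
    refine h3 ⟨(h (hS.1.add ((herm_N a b).smul (IsSelfAdjoint.all _)))).posSemidef, ?_⟩
    rw [map_add, map_smul, h2]
    have : rr F N = 0 := by
      ext i j
      by_cases e : F i j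
      · simp [rr_ap, e]
      · have x : ¬ (a = i ∧ b = j) := by rintro ⟨rfl, rfl⟩; exact e hab
        have y : ¬ (b = i ∧ a = j) := by rintro ⟨rfl, rfl⟩; exact e (hs _ _ hab)
        simp [rr_ap, e, hN, single, x, y]
    simp [this]
  have e : ∀ s : ℝ, (S + s • N).det = S.det * (1 + s • (S⁻¹ * N)).det := fun s => by
    rw [← det_mul, mul_add, mul_one, mul_smul_comm,
      mul_nonsing_inv_cancel_left _ _ ((isUnit_iff_isUnit_det _).mp hS.isUnit)]
  simp only [e] at m
  simp only [det_one_add_smul _ (S⁻¹ * N)] at m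
  have := m.hasDerivAt_eq_zero (((((hasDerivAt_id (0 : ℝ)).const_mul _).const_add 1).add
    ((Polynomial.hasDerivAt _ _).mul (hasDerivAt_pow 2 0))).const_mul _)
  have c : S⁻¹ b a = S⁻¹ a b := by simpa using congrFun (congrFun hS.inv.1 a) b
  simpa [hS.det_pos.ne', hN, mul_add, trace_mul_single, c] using this

open scoped Matrix.Norms.Operator

theorem inv_an {S : Matrix ι ι ℝ} (hS : S.PosDef) : AnalyticAt ℝ (fun T : Matrix ι ι ℝ => T⁻¹) S := by
  cases isEmpty_or_nonempty ι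
  · exact analyticAt_const.congr (f := fun _ => 0) (Eventually.of_forall fun _ => Subsingleton.elim _ _)
  simp only [nonsing_inv_eq_ringInverse]
  exact analyticAt_inverse hS.isUnit.unit

theorem loc (hs : ∀ i j, F i j → F j i) {S : Matrix ι ι ℝ} (hS : S.PosDef) :
    ∃ ψ : Matrix ι ι ℝ → Matrix ι ι ℝ, AnalyticAt ℝ ψ (Ph F S) ∧
      ∀ᶠ y in 𝓝 (Ph F S), y.IsHermitian → (ψ y).PosDef ∧ Ph F (ψ y) = y := by
  let R := (rr F (ι := ι)).toContinuousLinearMap
  have e : Ph F (ι := ι) = ⇑R + ((fun T => T⁻¹) - ⇑R ∘ fun T => T⁻¹) := by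
    ext T i j
    by_cases h : F i j <;> simp [Ph, R, rr_ap, h]
  have an : AnalyticAt ℝ (Ph F) S := by
    rw [e]
    exact (R.analyticAt _).add ((inv_an hS).sub ((R.analyticAt _).comp (inv_an hS)))
  have d : HasFDerivAt (fun T : Matrix ι ι ℝ => T⁻¹)
      (-ContinuousLinearMap.mulLeftRight ℝ _ S⁻¹ S⁻¹) S := by
    have := hasFDerivAt_ringInverse (𝕜 := ℝ) hS.isUnit.unit
    simp only [coe_units_inv, IsUnit.unit_spec] at this
    simp only [nonsing_inv_eq_ringInverse] at this ⊢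
    exact this
  have d2 := R.hasFDerivAt.add (d.sub (R.hasFDerivAt.comp S d))
  have inj : Function.Injective (fderiv ℝ (Ph F) S) := by
    have d3 : fderiv ℝ (Ph F) S = _ := (e ▸ d2 : HasFDerivAt (Ph F) _ S).fderiv
    rw [d3, injective_iff_map_eq_zero]
    intro X h
    change rr F X + (-(S⁻¹ * X * S⁻¹) - rr F (-(S⁻¹ * X * S⁻¹))) = 0 at h
    refine tr0 hS.inv hS.inv (tr1 (F := F) (fun i j a => ?_) fun i j a => ?_)
    · simpa [R, rr_ap, a] using congrFun (congrFun h i) j
    · simpa [R, rr_ap, a] using congrFun (congrFun h i) j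
  let D : Matrix ι ι ℝ ≃L[ℝ] Matrix ι ι ℝ :=
    (LinearEquiv.ofInjectiveEndo (fderiv ℝ (Ph F) S).toLinearMap inj).toContinuousLinearEquiv
  have h1 : HasStrictFDerivAt (Ph F) (D : Matrix ι ι ℝ →L[ℝ] Matrix ι ι ℝ) S := an.hasStrictFDerivAt
  refine ⟨h1.localInverse _ _ _, (h1.toOpenPartialHomeomorph _).analyticAt_symm'
    h1.mem_toOpenPartialHomeomorph_source an (i := D) rfl, ?_⟩
  have c : Continuous fun T : Matrix ι ι ℝ => Tᴴ := by fun_prop
  filter_upwards [h1.eventually_right_inverse, h1.localInverse_tendsto.eventually (pd_ev hS),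
    h1.localInverse_tendsto.eventually ((c.tendsto' S S hS.1).eventually h1.eventually_left_inverse)]
    with y a b g hy
  refine ⟨b ?_, a⟩
  have : ∀ T : Matrix ι ι ℝ, Ph F Tᴴ = (Ph F T)ᴴ := fun T => by
    ext i j
    have : F j i ↔ F i j := ⟨hs _ _, hs _ _⟩
    by_cases h : F i j <;> simp [Ph, ← transpose_nonsing_inv, this, h]
  rw [this, a, hy] at g
  exact g.symm

theorem param (hs : ∀ i j, F i j → F j i) (hi : ∀ i, ¬ F i i) (τ : Matrix ι ι ℝ →ₗ[ℝ] Matrix ι ι ℝ)
    (h1 : ∀ t, (τ t).IsHermitian) (h2 : ∀ t, rr F (τ t) = τ t) :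
    ∃ (U : Set (Matrix ι ι ℝ)) (σ : Matrix ι ι ℝ → Matrix ι ι ℝ), IsPreconnected U ∧ IsOpen U ∧
      AnalyticOnNhd ℝ σ U ∧ (∀ t ∈ U, (σ t).PosDef ∧ Ph F (σ t) = 1 + τ t) ∧
      ∀ t S, S.PosDef → Ph F S = 1 + τ t → t ∈ U ∧ σ t = S := by
  classical
  have r1 : rr F (1 : Matrix ι ι ℝ) = 1 := by
    ext i j
    by_cases h : F i j
    · have : i ≠ j := by rintro rfl; exact hi _ h
      simp [rr_ap, h, this]
    · simp [rr_ap, h]
  let U : Set (Matrix ι ι ℝ) := {t | ∃ S, S.PosDef ∧ Ph F S = 1 + τ t}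
  let σ : Matrix ι ι ℝ → Matrix ι ι ℝ := fun t => if h : t ∈ U then h.choose else 0
  have a : ∀ t ∈ U, (σ t).PosDef ∧ Ph F (σ t) = 1 + τ t := fun t h => by
    simp only [σ, dif_pos h]; exact h.choose_spec
  have b : ∀ t S, S.PosDef → Ph F S = 1 + τ t → t ∈ U ∧ σ t = S := fun t S x y =>
    ⟨⟨S, x, y⟩, uniq (a t ⟨S, x, y⟩).1 x ((a t ⟨S, x, y⟩).2.trans y.symm)⟩
  have c : ∀ t ∈ U, AnalyticAt ℝ σ t ∧ U ∈ 𝓝 t := fun t h => by
    obtain ⟨ψ, p1, p2⟩ := loc hs (a t h).1
    rw [(a t h).2] at p1 p2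
    have an : AnalyticAt ℝ (fun t => 1 + τ t) t :=
      analyticAt_const.add (τ.toContinuousLinearMap.analyticAt t)
    have := (an.continuousAt.eventually p2).mono fun s x =>
      b s _ (x (isHermitian_one.add (h1 s))).1 (x (isHermitian_one.add (h1 s))).2
    exact ⟨(p1.comp (f := fun t => 1 + τ t) an).congr (this.mono fun s x => x.2.symm), this.mono fun s x => x.1⟩
  refine ⟨U, σ, Convex.isPreconnected ?_, isOpen_iff_mem_nhds.mpr fun t h => (c t h).2,
    fun t h => (c t h).1, a, b⟩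
  rintro s ⟨S, s1, s2⟩ t ⟨T, t1, t2⟩ x y hx hy hxy
  have pd : (x • S + y • T).PosDef := by
    rcases hx.eq_or_lt with rfl | hx
    · simpa [show y = 1 by linarith] using t1
    · exact (s1.smul hx).add_posSemidef (t1.posSemidef.smul hy)
  obtain ⟨W, w1, w2⟩ := exist hs hi pd
  have k : ∀ S : Matrix ι ι ℝ, rr F (Ph F S) = rr F S := fun S => by
    ext i j
    by_cases h : F i j <;> simp [rr_ap, Ph, h]
  refine ⟨W, w1, ?_⟩
  rw [w2, map_add, map_smul, map_smul, ← k S, ← k T, s2, t2]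
  simp only [map_add, map_smul, r1, h2, smul_add]
  rw [add_add_add_comm, ← add_smul, hxy, one_smul]

end Pool.Agent.H.MP_0a1f67_ag
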