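import Pool.Agent.H.MP_0a1f67_ag.A

set_option autoImplicit false
open Matrix Filter Topology
open scoped Matrix.Norms.Operator

namespace Pool.Agent.H.MP_0a1f67_ag

variable {ι : Type} [Fintype ι] [DecidableEq ι] (G H : SimpleGraph ι)

def MM : Set (Matrix ι ι ℝ) := {S | S.PosDef ∧ (∀ i j, i ≠ j → ¬ G.Adj i j → S⁻¹ i j = 0) ∧
  (∀ i j, i ≠ j → ¬ H.Adj i j → S i j = 0) ∧ ∀ i, S i i = 1}

def FF (i j : ι) : Prop := H.Adj i j ∧ ¬ G.Adj i j
noncomputable instance : DecidableRel (FF G H) := Classical.decRel _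

open Classical in
noncomputable def ta : Matrix ι ι ℝ →ₗ[ℝ] Matrix ι ι ℝ where
  toFun S := of fun i j => if G.Adj i j ∧ H.Adj i j then (S i j + S j i) / 2 else 0
  map_add' A B := by ext i j; by_cases h : G.Adj i j ∧ H.Adj i j <;> simp [h]; ring
  map_smul' c B := by ext i j; by_cases h : G.Adj i j ∧ H.Adj i j <;> simp [h]; ring

open Classical in
theorem ta_ap (S : Matrix ι ι ℝ) (i j : ι) :
    ta G H S i j = if G.Adj i j ∧ H.Adj i j then (S i j + S j i) / 2 else 0 := rfl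

theorem ta_herm (S : Matrix ι ι ℝ) : (ta G H S).IsHermitian := by
  ext i j
  rw [conjTranspose_apply, star_trivial, ta_ap, ta_ap, add_comm]
  congr 1
  rw [G.adj_comm, H.adj_comm]

theorem ta_rr (S : Matrix ι ι ℝ) : rr (FF G H) (ta G H S) = ta G H S := by
  ext i j
  by_cases h : FF G H i j
  · simp [rr_ap, ta_ap, h, h.2]
  · simp [rr_ap, h]

theorem ta_ta (S : Matrix ι ι ℝ) : ta G H (ta G H S) = ta G H S := by
  ext i j
  by_cases h : G.Adj i j ∧ H.Adj i j
  · simp [ta_ap, h, h.1.symm, h.2.symm]; ring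
  · simp [ta_ap, h]

variable {G H}

theorem M_Ph {S : Matrix ι ι ℝ} (h : S ∈ MM G H) : Ph (FF G H) S = 1 + ta G H S := by
  obtain ⟨a, b, c, d⟩ := h
  ext i j
  have e : S j i = S i j := by simpa using congrFun (congrFun a.1 i) j
  by_cases x : i = j
  · simp [Ph, FF, ta_ap, x, d]
  by_cases y : H.Adj i j <;> by_cases z : G.Adj i j <;> simp [Ph, FF, ta_ap, x, y, z, e, b i j x, c i j x]

theorem Ph_M {S t : Matrix ι ι ℝ} (a : S.PosDef) (h : Ph (FF G H) S = 1 + ta G H t)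
    (b : ∀ i j, i ≠ j → ¬ G.Adj i j → S⁻¹ i j = 0) : S ∈ MM G H :=
  ⟨a, b, fun i j x y => by simpa [Ph, FF, ta_ap, x, y] using congrFun (congrFun h i) j,
    fun i => by simpa [Ph, FF, ta_ap] using congrFun (congrFun h i) i⟩

theorem one_M : (1 : Matrix ι ι ℝ) ∈ MM G H :=
  ⟨PosDef.one, fun i j h _ => by simp [h], fun i j h _ => by simp [h], by simp⟩

theorem ent {E : Type} [NormedAddCommGroup E] [NormedSpace ℝ E] {f : E → Matrix ι ι ℝ} {x : E}
    (h : AnalyticAt ℝ f x) (i j : ι) : AnalyticAt ℝ (fun y => f y i j) x :=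
  ((entryLinearMap ℝ ℝ i j).toContinuousLinearMap.analyticAt _).comp h

theorem prime (h : ∀ᶠ t in 𝓝 (1 : Matrix ι ι ℝ), ∃ S ∈ MM G H, ta G H S = ta G H t)
    (p q : MvPolynomial (ι × ι) ℝ)
    (hpq : ∀ S ∈ MM G H, MvPolynomial.aeval (fun k : ι × ι => S k.1 k.2) (p * q) = 0) :
    (∀ S ∈ MM G H, MvPolynomial.aeval (fun k : ι × ι => S k.1 k.2) p = 0) ∨
      ∀ S ∈ MM G H, MvPolynomial.aeval (fun k : ι × ι => S k.1 k.2) q = 0 := by
  obtain ⟨U, σ, u1, u2, u3, u4, u5⟩ := param (F := FF G H) (fun i j h => ⟨h.1.symm, fun g => h.2 g.symm⟩)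
    (fun i h => h.1.ne rfl) (ta G H) (ta_herm G H) (ta_rr G H)
  have m : ∀ t ∈ U, σ t ∈ MM G H := fun t ht => Ph_M (u4 t ht).1 (u4 t ht).2 fun i j x y => by
    refine AnalyticOnNhd.eqOn_zero_of_preconnected_of_eventuallyEq_zero (𝕜 := ℝ)
      (f := fun t => (σ t)⁻¹ i j) (fun t ht => ent ((inv_an (u4 t ht).1).comp (u3 t ht)) i j) u1
      (u5 1 1 PosDef.one (M_Ph one_M)).1 ?_ ht
    filter_upwards [h] with t ⟨S, s1, s2⟩
    rw [(u5 t S s1.1 (s2 ▸ M_Ph s1)).2]
    exact s1.2.1 i j x y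
  have an : ∀ p : MvPolynomial (ι × ι) ℝ,
      AnalyticOnNhd ℝ (fun t => MvPolynomial.aeval (fun k : ι × ι => σ t k.1 k.2) p) U :=
    fun p t ht => .aeval_mvPolynomial (fun k => ent (u3 t ht) _ _) p
  rw [or_iff_not_imp_left]
  intro hp S hS
  push Not at hp
  obtain ⟨T, t1, t2⟩ := hp
  obtain ⟨a, b⟩ := u5 T T t1.1 (M_Ph t1)
  obtain ⟨c, d⟩ := u5 S S hS.1 (M_Ph hS)
  rw [← d]
  refine (an q).eqOn_zero_of_preconnected_of_eventuallyEq_zero u1 a ?_ c
  filter_upwards [u2.mem_nhds a, (an p T a).continuousAt.eventually_ne (by rwa [b])] with t x y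
  have := hpq _ (m t x)
  rw [map_mul] at this
  exact (mul_eq_zero.mp this).resolve_left y

theorem line {a b : ι} (x : G.Adj a b) (y : H.Adj a b) :
    ∀ᶠ s : ℝ in 𝓝 0, (1 + s • (single a b 1 + single b a 1) : Matrix ι ι ℝ) ∈ MM G H := by
  have ab := x.ne
  filter_upwards [pd_line PosDef.one (single a b 1 + single b a 1),
    Ioo_mem_nhds (by norm_num : (-1 : ℝ) < 0) one_pos] with s h hs
  have n : 1 - s ^ 2 ≠ 0 := by nlinarith [hs.1, hs.2]
  have z : ∀ K : SimpleGraph ι, K.Adj a b → ∀ i j, ¬ K.Adj i j →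
      (single a b 1 + single b a 1 : Matrix ι ι ℝ) i j = 0 := fun K k i j e => by
    have x : ¬ (a = i ∧ b = j) := by rintro ⟨rfl, rfl⟩; exact e k
    have y : ¬ (b = i ∧ a = j) := by rintro ⟨rfl, rfl⟩; exact e k.symm
    simp [single, x, y]
  have e : (1 + s • (single a b 1 + single b a 1) : Matrix ι ι ℝ)⁻¹ = 1 + ((s ^ 2 / (1 - s ^ 2)) •
      (single a a 1 + single b b 1) - (s / (1 - s ^ 2)) • (single a b 1 + single b a 1)) := by
    refine inv_eq_right_inv ?_
    simp only [mul_add, add_mul, mul_sub, mul_smul_comm, smul_mul_assoc, mul_one, one_mul,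
      single_mul_single_same, single_mul_single_of_ne _ _ _ _ ab, single_mul_single_of_ne _ _ _ _ ab.symm]
    match_scalars <;> field_simp <;> ring
  refine ⟨h (isHermitian_one.add ((herm_N a b).smul (IsSelfAdjoint.all _))), fun i j u v => ?_,
    fun i j u v => ?_, fun i => ?_⟩
  · rw [e, Matrix.add_apply, Matrix.sub_apply, Matrix.smul_apply, Matrix.smul_apply, z G x i j v]
    have x : ∀ a, ¬ (a = i ∧ a = j) := by rintro _ ⟨rfl, rfl⟩; exact u rfl
    simp [u, single, x]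
  · rw [Matrix.add_apply, Matrix.smul_apply, z H y i j v]
    simp [u]
  · rw [Matrix.add_apply, Matrix.smul_apply, z H y i i (by simp)]
    simp

theorem tang {E : Type} [NormedAddCommGroup E] [NormedSpace ℝ E] [FiniteDimensional ℝ E]
    (e : E ≃L[ℝ] Matrix ι ι ℝ) (φ : OpenPartialHomeomorph E E) (V : Submodule ℝ E)
    (h0 : e.symm 1 ∈ φ.source) (h1 : ContDiffOn ℝ 1 φ φ.source) (h2 : ContDiffOn ℝ 1 φ.symm φ.target)
    (h3 : ∀ q ∈ φ.source, e q ∈ MM G H ↔ φ q ∈ V) :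
    ∀ᶠ t in 𝓝 (1 : Matrix ι ι ℝ), ∃ S ∈ MM G H, ta G H S = ta G H t := by
  classical
  set p := e.symm 1 with hp
  have d1 := ((h1.contDiffAt (φ.open_source.mem_nhds h0)).hasStrictFDerivAt one_ne_zero).hasFDerivAt
  have d2 := (h2.contDiffAt (φ.open_target.mem_nhds (φ.map_source h0))).hasStrictFDerivAt one_ne_zero
  set D := fderiv ℝ φ p
  set D' := fderiv ℝ φ.symm (φ p)
  have dd : D'.comp D = ContinuousLinearMap.id ℝ E :=
    ((d2.hasFDerivAt.comp p d1).congr_of_eventuallyEq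
      ((φ.eventually_left_inverse h0).mono fun x h => h.symm)).unique (hasFDerivAt_id p)
  have v0 : φ p ∈ V := (h3 p h0).mp (by simpa [hp] using one_M)
  have k : ∀ a b, G.Adj a b → H.Adj a b → D (e.symm (single a b 1 + single b a 1)) ∈ V := fun a b x y => by
    set N := e.symm (single a b 1 + single b a 1) with hN
    have l : HasDerivAt (fun s : ℝ => p + s • N) N 0 := by
      simpa using ((hasDerivAt_id (0 : ℝ)).smul_const N).const_add p
    have l2 := HasFDerivAt.comp_hasDerivAt_of_eq (0 : ℝ) d1 l (by simp)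
    refine V.closed_of_finiteDimensional.mem_of_tendsto l2.tendsto_slope_zero ?_
    have : ∀ᶠ s : ℝ in 𝓝 0, p + s • N ∈ φ.source :=
      (l.continuousAt.tendsto.eventually (φ.open_source.mem_nhds (by simpa using h0)))
    filter_upwards [nhdsWithin_le_nhds this, nhdsWithin_le_nhds (line x y)] with s s1 s2
    refine V.smul_mem _ (V.sub_mem ?_ (by simpa using v0))
    simpa using (h3 _ s1).mp (by simpa [hp, hN] using s2)
  have k2 : ∀ z, D (e.symm (ta G H z)) ∈ V := fun z => by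
    have : ta G H z = ∑ a, ∑ b, (if G.Adj a b ∧ H.Adj a b then z a b / 2 else 0) •
        (single a b 1 + single b a 1 : Matrix ι ι ℝ) := by
      ext i j
      simp only [ta_ap, Matrix.sum_apply, Matrix.smul_apply, Matrix.add_apply, single, of_apply, smul_eq_mul, mul_add,
        Finset.sum_add_distrib, mul_ite, mul_one, mul_zero, ite_and]
      simp [G.adj_comm j i, H.adj_comm j i]
      split_ifs <;> ring
    rw [this]
    simp only [map_sum, map_smul]
    refine V.sum_mem fun a _ => V.sum_mem fun b _ => ?_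
    split_ifs with h
    · exact V.smul_mem _ (k a b h.1 h.2)
    · simp
  let T := (ta G H).toContinuousLinearMap
  let A : V × Matrix ι ι ℝ →L[ℝ] E := V.subtypeL.comp (ContinuousLinearMap.fst ℝ _ _)
  let B : V × Matrix ι ι ℝ →L[ℝ] Matrix ι ι ℝ :=
    (ContinuousLinearMap.id ℝ _ - T).comp (ContinuousLinearMap.snd ℝ _ _)
  have g := ((e : E →L[ℝ] Matrix ι ι ℝ).hasStrictFDerivAt.comp (⟨φ p, v0⟩, 0)
    (HasStrictFDerivAt.comp (⟨φ p, v0⟩, 0) (g := φ.symm) d2 A.hasStrictFDerivAt)).add B.hasStrictFDerivAt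
  have g2 := g.map_nhds_eq_of_surj (LinearMap.range_eq_top.mpr fun z => ⟨(⟨_, k2 z⟩, z), by
    have := congrArg (· (e.symm (ta G H z))) dd
    simp only [ContinuousLinearMap.comp_apply, ContinuousLinearMap.id_apply] at this
    simp [A, B, T, this]⟩)
  have g3 : (1 : Matrix ι ι ℝ) = e (φ.symm (A (⟨φ p, v0⟩, 0))) + B (⟨φ p, v0⟩, 0) := by
    simp [A, B, φ.left_inv h0]
    simp [hp]
  rw [g3]
  refine g2.ge ?_
  refine mem_map.mpr ?_
  filter_upwards [A.continuous.continuousAt.eventually (φ.open_target.mem_nhds (φ.map_source h0))] with w hw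
  refine ⟨e (φ.symm (A w)), (h3 _ (φ.map_target hw)).mpr (by rw [φ.right_inv hw]; exact w.1.2), ?_⟩
  simp [B, T, ta_ta]

end Pool.Agent.H.MP_0a1f67_ag
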